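import Mathlib
import Pool.Agent.Q215.GrpF

set_option autoImplicit false

/-!
# MP_8b3519_lc

Two Borel complete classes `C`, `D` of countable structures such that there is no Borel reduction
(a Borel functor which is a reduction of the orbit equivalence relations) from the groupoid of `C`
to the groupoid of `D`.
-/

namespace Pool.Agent.Results.MP_8b3519_lc.NotBireducible

open Pool.Agent.Q215.Grp

/-- There are countable languages and Borel complete classes whose groupoids are not Borel
bireducible: there is no Borel reduction from the groupoid of the first class to the groupoid of
the second class.  The second class consists of the structures with a distinguished strict linear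
order. -/
theorem result : ∃ (L₁ L₂ : FirstOrder.Language.{0, 0}) (C : Set (Str L₁)) (D : Set (Str L₂)),
    (Countable (Σ n, L₁.Functions n) ∧ Countable (Σ n, L₁.Relations n)) ∧
    (Countable (Σ n, L₂.Functions n) ∧ Countable (Σ n, L₂.Relations n)) ∧
    BorelComplete C ∧ BorelComplete D ∧ ¬ Nonempty (GReduction C D) ∧
    ¬ (Nonempty (GReduction C D) ∧ Nonempty (GReduction D C)) := by
  have h1 : Countable (Σ n, U.Functions n) := by
    have : ∀ n, Countable (U.Functions n) := fun n => (inferInstance : Countable Empty)
    infer_instance
  have h2 : Countable (Σ n, U.Relations n) := by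
    have : ∀ n, Countable (U.Relations n) := fun n => (inferInstance : Countable ℕ)
    infer_instance
  have h3 : ¬ Nonempty (GReduction (Set.univ : Set (Str U)) LinO) := fun ⟨F⟩ => no_reduction F
  exact ⟨U, U, Set.univ, LinO, ⟨h1, h2⟩, ⟨h1, h2⟩, complete_univ, complete_LinO, h3, fun h => h3 h.1⟩

end Pool.Agent.Results.MP_8b3519_lc.NotBireducible
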